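import Mathlib

/-!
# (L3): number of triples (label, window, window)

`U`, `U'` are the window sets of the two sides, `q = M / M'`, `I` the set of labels with an
arbitrary class map `cl`; the target `q * b + b'` lies in an interval of length `A` and in the
class of the label modulo `h`.
-/

namespace Pool.Agent.Helper87.L3

open Finset

variable {γ : Type*}

/-- the triples -/
def trip (I : Finset γ) (U U' : Finset ℕ) (cl : γ → ℕ) (q h t A : ℕ) : Finset (γ × (ℕ × ℕ)) :=
  (I ×ˢ (U ×ˢ U')).filter (fun z => (t ≤ q * z.2.1 + z.2.2 ∧ q * z.2.1 + z.2.2 < t + A) ∧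
    q * z.2.1 + z.2.2 ≡ cl z.1 [MOD h])

/-- elements of `U` in the interval `[a, a + L)` -/
def arc (U : Finset ℕ) (a L : ℕ) : Finset ℕ := U.filter (fun u => a ≤ u ∧ u < a + L)

/-- elements of `U` in the interval `[a, a + L)` and in the class of `c` modulo `h` -/
def arcc (U : Finset ℕ) (a L c h : ℕ) : Finset ℕ :=
  U.filter (fun u => (a ≤ u ∧ u < a + L) ∧ u ≡ c [MOD h])

theorem mem_arc_left {U : Finset ℕ} {q t A B' b b' : ℕ} (hq : 0 < q) (hb : b ∈ U)
    (hB : b' < B') (h1 : t ≤ q * b + b') (h2 : q * b + b' < t + A) :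
    b ∈ arc U ((t - B') / q) ((A + B') / q + 2) := by
  refine mem_filter.mpr ⟨hb, ?_, ?_⟩
  · rw [Nat.div_le_iff_le_mul_add_pred hq]
    have : q * b + (q - 1) ≥ q * b := Nat.le_add_right _ _
    omega
  · have e1 : t - B' < q * ((t - B') / q + 1) := by
      rw [mul_add, mul_one]
      have := Nat.div_add_mod (t - B') q
      have := Nat.mod_lt (t - B') hq
      omega
    have e2 : A + B' < q * ((A + B') / q + 1) := by
      rw [mul_add, mul_one]
      have := Nat.div_add_mod (A + B') q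
      have := Nat.mod_lt (A + B') hq
      omega
    have e3 : q * b < q * ((t - B') / q + ((A + B') / q + 2)) := by
      have : q * ((t - B') / q + ((A + B') / q + 2)) =
          q * ((t - B') / q + 1) + q * ((A + B') / q + 1) := by ring
      omega
    exact lt_of_mul_lt_mul_left e3 (Nat.zero_le q)

theorem mem_arcc_right {U' : Finset ℕ} {q t A B' b b' h k : ℕ} (hh : 0 < h) (hb : b' ∈ U')
    (hB : b' < B') (h1 : t ≤ q * b + b') (h2 : q * b + b' < t + A)
    (h3 : q * b + b' ≡ k [MOD h]) :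
    b' ∈ arcc U' (if A ≤ B' then t - q * b else 0) (min A B') (k + (h - 1) * (q * b)) h := by
  refine mem_filter.mpr ⟨hb, ?_, ?_⟩
  · by_cases hAB : A ≤ B'
    · rw [if_pos hAB, min_eq_left hAB]
      omega
    · rw [if_neg hAB, min_eq_right (by omega)]
      omega
  · have e1 : (h - 1) * (q * b) + (q * b + b') = h * (q * b) + b' := by
      obtain ⟨m, rfl⟩ : ∃ m, h = m + 1 := ⟨h - 1, by omega⟩
      rw [Nat.add_sub_cancel]
      ring
    have e2 : (h - 1) * (q * b) + (q * b + b') ≡ (h - 1) * (q * b) + k [MOD h] := h3.add_left _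
    rw [e1] at e2
    have e3 : h * (q * b) + b' ≡ b' [MOD h] := by
      have : h * (q * b) + b' ≡ 0 + b' [MOD h] :=
        Nat.ModEq.add_right _ ((Nat.modEq_zero_iff_dvd).mpr (dvd_mul_right h _))
      rwa [zero_add] at this
    rw [add_comm k]
    exact e3.symm.trans e2

/-- **The number of triples.** -/
theorem trip_card (I : Finset γ) (U U' : Finset ℕ) (cl : γ → ℕ) (q h t A B' : ℕ) (hq : 0 < q)
    (hh : 0 < h) (hB : ∀ u ∈ U', u < B') (ρ ρ' w w' : ℝ) (hρ : 0 ≤ ρ)
    (hU : ∀ a L : ℕ, ((arc U a L).card : ℝ) ≤ ρ * (1 + L / w)) (hw : 0 < w)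
    (hU' : ∀ a L c : ℕ, ((arcc U' a L c h).card : ℝ) ≤ ρ' * (1 + L / (h * w'))) (hw' : 0 < w')
    (hρ' : 0 ≤ ρ') :
    ((trip I U U' cl q h t A).card : ℝ) ≤
      I.card * (ρ * (1 + (((A : ℝ) + B') / q + 2) / w)) *
        (ρ' * (1 + (min A B' : ℕ) / (h * w'))) := by
  classical
  set U0 := arc U ((t - B') / q) ((A + B') / q + 2) with hU0
  have hmaps : ∀ z ∈ trip I U U' cl q h t A, (z.1, z.2.1) ∈ I ×ˢ U0 := by
    intro z hz
    rw [trip, mem_filter, mem_product, mem_product] at hz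
    rw [mem_product]
    exact ⟨hz.1.1, mem_arc_left hq hz.1.2.1 (hB _ hz.1.2.2) hz.2.1.1 hz.2.1.2⟩
  rw [card_eq_sum_card_fiberwise (f := fun z : γ × (ℕ × ℕ) => (z.1, z.2.1)) (t := I ×ˢ U0)
    (fun z hz => hmaps z hz)]
  push_cast
  have hfib : ∀ k ∈ I ×ˢ U0,
      ((((trip I U U' cl q h t A).filter (fun z => (z.1, z.2.1) = k)).card : ℕ) : ℝ) ≤
        ρ' * (1 + (min A B' : ℕ) / (h * w')) := by
    intro k _
    refine le_trans ?_ (hU' (if A ≤ B' then t - q * k.2 else 0) (min A B')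
      (cl k.1 + (h - 1) * (q * k.2)))
    apply Nat.cast_le.mpr
    apply card_le_card_of_injOn (fun z => z.2.2)
    · intro z hz
      rw [Finset.mem_coe, mem_filter, trip, mem_filter, mem_product, mem_product] at hz
      obtain ⟨⟨⟨hz1, hz2, hz3⟩, ⟨h1, h2⟩, h3⟩, rfl⟩ := hz
      exact mem_arcc_right hh hz3 (hB _ hz3) h1 h2 h3
    · intro z hz z' hz' hzz
      rw [Finset.mem_coe, mem_filter] at hz hz'
      have e : (z.1, z.2.1) = (z'.1, z'.2.1) := hz.2.trans hz'.2.symm
      obtain ⟨z1, z2, z3⟩ := z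
      obtain ⟨z1', z2', z3'⟩ := z'
      simp only [Prod.mk.injEq] at e hzz ⊢
      exact ⟨e.1, e.2, hzz⟩
  refine (sum_le_sum hfib).trans ?_
  rw [sum_const, nsmul_eq_mul, card_product]
  push_cast
  have h0 : (0 : ℝ) ≤ ρ' * (1 + (min A B' : ℕ) / (h * w')) := by positivity
  have h1 : ((U0.card : ℕ) : ℝ) ≤ ρ * (1 + (((A : ℝ) + B') / q + 2) / w) := by
    refine (hU _ _).trans ?_
    apply mul_le_mul_of_nonneg_left _ hρ
    have e1 : ((((A + B') / q + 2 : ℕ) : ℕ) : ℝ) ≤ ((A : ℝ) + B') / q + 2 := by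
      push_cast
      have : (((A + B') / q : ℕ) : ℝ) ≤ ((A + B' : ℕ) : ℝ) / (q : ℝ) := Nat.cast_div_le
      push_cast at this
      linarith
    gcongr
  push_cast at h0 ⊢
  apply mul_le_mul_of_nonneg_right _ h0
  exact mul_le_mul_of_nonneg_left h1 (Nat.cast_nonneg _)

end Pool.Agent.Helper87.L3
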