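import Mathlib

/-!
# (L2): number of pairs (label, target) with a given residue modulo `g = q_F ^ z`

The target `t` lies in an interval of length `A`, in the class of the label modulo `h` and in the
class of `t0` modulo `g`.
-/

namespace Pool.Agent.Helper87.L3

open Finset

variable {γ : Type*}

/-- the pairs (label, target) -/
def prs (I : Finset γ) (cl : γ → ℕ) (h g t0 a A : ℕ) : Finset (γ × ℕ) :=
  (I ×ˢ Ico a (a + A)).filter (fun z => z.2 ≡ cl z.1 [MOD h] ∧ z.2 ≡ t0 [MOD g])

/-- numbers of an interval in one class -/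
theorem class_card_le {a A m : ℕ} (hm : 0 < m) (F : Finset ℕ) (hF : ∀ x ∈ F, a ≤ x ∧ x < a + A)
    (hc : ∀ x ∈ F, ∀ y ∈ F, x ≡ y [MOD m]) : F.card ≤ A / m + 1 := by
  rcases F.eq_empty_or_nonempty with rfl | hne
  · simp
  · set x0 := F.min' hne with hx0
    have hx0F := F.min'_mem hne
    have : F ⊆ (range (A / m + 1)).image (fun k => x0 + m * k) := by
      intro x hx
      have h1 : x0 ≤ x := F.min'_le x hx
      have h2 : m ∣ x - x0 := (Nat.modEq_iff_dvd' h1).mp (hc x0 hx0F x hx)
      obtain ⟨k, hk⟩ := h2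
      rw [mem_image]
      refine ⟨k, ?_, by omega⟩
      rw [mem_range, Nat.lt_succ_iff, Nat.le_div_iff_mul_le hm]
      have h3 := (hF x hx).2
      have h4 := (hF x0 hx0F).1
      rw [mul_comm]
      omega
    exact (card_le_card this).trans (card_image_le.trans (card_range _).le)

/-- **Labels first.** -/
theorem prs_card (I : Finset γ) (cl : γ → ℕ) {h g : ℕ} (t0 a A : ℕ) (hh : 0 < h) (hg : 0 < g)
    (hhg : h.Coprime g) : (prs I cl h g t0 a A).card ≤ I.card * (A / (h * g) + 1) := by
  classical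
  have hmaps : ∀ z ∈ prs I cl h g t0 a A, z.1 ∈ I := fun z hz =>
    (mem_product.mp (mem_filter.mp hz).1).1
  rw [card_eq_sum_card_fiberwise (f := fun z : γ × ℕ => z.1) (t := I) hmaps]
  refine (sum_le_card_nsmul I _ (A / (h * g) + 1) ?_).trans (by rw [smul_eq_mul])
  intro i _
  have h1 : ((prs I cl h g t0 a A).filter (fun z => z.1 = i)).card =
      (((prs I cl h g t0 a A).filter (fun z => z.1 = i)).image (fun z => z.2)).card := by
    rw [card_image_of_injOn]
    intro z hz z' hz' hzz
    rw [Finset.mem_coe, mem_filter] at hz hz'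
    exact Prod.ext (hz.2.trans hz'.2.symm) hzz
  rw [h1]
  apply class_card_le (Nat.mul_pos hh hg)
  · intro x hx
    rw [mem_image] at hx
    obtain ⟨z, hz, rfl⟩ := hx
    rw [mem_filter, prs, mem_filter, mem_product, mem_Ico] at hz
    exact hz.1.1.2
  · intro x hx y hy
    rw [mem_image] at hx hy
    obtain ⟨z, hz, rfl⟩ := hx
    obtain ⟨z', hz', rfl⟩ := hy
    rw [mem_filter, prs, mem_filter, mem_product, mem_Ico] at hz hz'
    have e : z.1 = z'.1 := hz.2.trans hz'.2.symm
    rw [← Nat.modEq_and_modEq_iff_modEq_mul hhg]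
    refine ⟨hz.1.2.1.trans ?_, hz.1.2.2.trans hz'.1.2.2.symm⟩
    rw [e]
    exact hz'.1.2.1.symm

/-- **Short interval: the target is constant.** -/
theorem prs_card_short (I : Finset γ) (cl : γ → ℕ) {h g m0 : ℕ} (t0 a A : ℕ) (hA : A ≤ g)
    (hcl : ∀ c : ℕ, (I.filter (fun i => cl i ≡ c [MOD h])).card ≤ m0) :
    (prs I cl h g t0 a A).card ≤ m0 := by
  classical
  rcases (prs I cl h g t0 a A).eq_empty_or_nonempty with he | ⟨z0, hz0⟩
  · rw [he]
    simp
  · have huniq : ∀ z ∈ prs I cl h g t0 a A, z.2 = z0.2 := by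
      intro z hz
      rw [prs, mem_filter, mem_product, mem_Ico] at hz hz0
      have e : z.2 ≡ z0.2 [MOD g] := hz.2.2.trans hz0.2.2.symm
      rcases le_total z.2 z0.2 with hle | hle
      · have h1 := (Nat.modEq_iff_dvd' hle).mp e
        have h2 := Nat.eq_zero_of_dvd_of_lt h1 (by omega)
        omega
      · have h1 := (Nat.modEq_iff_dvd' hle).mp e.symm
        have h2 := Nat.eq_zero_of_dvd_of_lt h1 (by omega)
        omega
    refine le_trans (card_le_card_of_injOn (fun z => z.1) ?_ ?_) (hcl z0.2)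
    · intro z hz
      have hz' := hz
      rw [Finset.mem_coe, prs, mem_filter, mem_product] at hz'
      rw [Finset.mem_coe, mem_filter]
      refine ⟨hz'.1.1, ?_⟩
      rw [← huniq z hz]
      exact hz'.2.1.symm
    · intro z hz z' hz' hzz
      exact Prod.ext hzz ((huniq z hz).trans (huniq z' hz').symm)

end Pool.Agent.Helper87.L3
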