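import Mathlib

/-!
# (L3): the exponents

Sizes in natural logarithms: `q = exp D`, windows of length about `exp W`, fronts `f`, `f'` of
depth at least `cm * W`.  The product (number of triples) times (price of a hit) is at most
`exp (- cm * D / 4)` up to constants and `exp (8 η)`, for all `D ≥ 0.38 * W`.
-/

namespace Pool.Agent.Helper87.L3

open Real

theorem fac1 {q f w B' A W D η CA : ℝ} (hq : q = exp D) (hW : 0 ≤ W) (hη : 0 ≤ η)
    (hf0 : 0 < f) (hf2 : f ≤ exp (0.4 * W)) (hw : exp (W / 2 - η) ≤ w)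
    (hB : B' ≤ exp (W + η)) (hA : A ≤ CA * (q * f)) (hCA : 1 ≤ CA) :
    1 + ((A + B') / q + 2) / w ≤ 4 * CA * exp (2 * η) * (1 + exp (W / 2 - D)) := by
  have hq0 : 0 < q := by rw [hq]; exact exp_pos _
  have hw0 : 0 < w := (exp_pos _).trans_le hw
  have e1 : A / q / w ≤ CA * exp (2 * η) := by
    have h1 : A / q ≤ CA * f := by
      rw [div_le_iff₀ hq0]
      linarith
    have h2 : f ≤ exp η * w := by
      calc f ≤ exp (0.4 * W) := hf2
        _ ≤ exp (η + (W / 2 - η)) := exp_le_exp.mpr (by linarith)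
        _ = exp η * exp (W / 2 - η) := exp_add _ _
        _ ≤ exp η * w := mul_le_mul_of_nonneg_left hw (exp_pos _).le
    rw [div_le_iff₀ hw0]
    calc A / q ≤ CA * f := h1
      _ ≤ CA * (exp η * w) := mul_le_mul_of_nonneg_left h2 (by linarith)
      _ ≤ CA * (exp (2 * η) * w) := by
          apply mul_le_mul_of_nonneg_left _ (by linarith)
          apply mul_le_mul_of_nonneg_right _ hw0.le
          exact exp_le_exp.mpr (by linarith)
      _ = CA * exp (2 * η) * w := by ring
  have e2 : B' / q / w ≤ exp (2 * η) * exp (W / 2 - D) := by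
    rw [div_le_iff₀ hw0, div_le_iff₀ hq0, hq]
    calc B' ≤ exp (W + η) := hB
      _ = exp (2 * η) * exp (W / 2 - D) * exp (W / 2 - η) * exp D := by
          rw [← exp_add, ← exp_add, ← exp_add]; congr 1; ring
      _ ≤ exp (2 * η) * exp (W / 2 - D) * w * exp D := by gcongr
  have e3 : 2 / w ≤ 2 * exp (2 * η) := by
    rw [div_le_iff₀ hw0]
    have : (1 : ℝ) ≤ exp (2 * η) * w := by
      calc (1 : ℝ) = exp 0 := (exp_zero).symm
        _ ≤ exp (2 * η + (W / 2 - η)) := exp_le_exp.mpr (by linarith)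
        _ = exp (2 * η) * exp (W / 2 - η) := exp_add _ _
        _ ≤ exp (2 * η) * w := mul_le_mul_of_nonneg_left hw (exp_pos _).le
    linarith
  have e4 : (1 : ℝ) ≤ exp (2 * η) := one_le_exp (by linarith)
  have e5 : 1 + ((A + B') / q + 2) / w = 1 + A / q / w + B' / q / w + 2 / w := by ring
  have e6 : 0 < exp (W / 2 - D) := exp_pos _
  have e7 : 0 < exp (2 * η) := exp_pos _
  rw [e5]
  nlinarith [mul_pos e7 e6, mul_nonneg (mul_pos e7 e6).le (by linarith : (0 : ℝ) ≤ CA - 1),
    mul_nonneg e7.le (by linarith : (0 : ℝ) ≤ CA - 1)]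

theorem fac2 {q f f' w' B' A W D η cm CA : ℝ} (hq : q = exp D) (hW : 0 ≤ W) (hη : 0 ≤ η)
    (hD : 0.38 * W ≤ D) (hcm : 0 ≤ cm) (hcm1 : cm ≤ 0.2) (hf : exp (cm * W) ≤ f)
    (hf'0 : 0 < f') (hff : f' ≤ f * exp (0.01 * W)) (hw' : exp (W / 2 - η) ≤ w')
    (hB : B' ≤ exp (W + η)) (hB0 : 0 ≤ B') (hA : A ≤ CA * (q * f)) (hA0 : 0 ≤ A)
    (hCA : 1 ≤ CA) :
    exp (D / 2) * (1 + exp (W / 2 - D)) * (1 + min A B' / (f' * w')) * (f' / (q * f)) ≤
      4 * CA * exp (2 * η) * exp (-(cm * D / 4)) := by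
  have hq0 : 0 < q := by rw [hq]; exact exp_pos _
  have hw0 : 0 < w' := (exp_pos _).trans_le hw'
  have hf0 : 0 < f := (exp_pos _).trans_le hf
  have hD0 : 0 ≤ D := by nlinarith
  have hm0 : 0 ≤ min A B' := le_min hA0 hB0
  -- the four terms
  have split : exp (D / 2) * (1 + exp (W / 2 - D)) * (1 + min A B' / (f' * w')) *
      (f' / (q * f)) = exp (D / 2) * (f' / (q * f)) +
        exp (D / 2) * exp (W / 2 - D) * (f' / (q * f)) +
        exp (D / 2) * (min A B' / (q * f * w')) +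
        exp (D / 2) * exp (W / 2 - D) * (min A B' / (q * f * w')) := by
    field_simp
    ring
  have hr : f' / (q * f) ≤ exp (0.01 * W - D) := by
    rw [div_le_iff₀ (mul_pos hq0 hf0), hq]
    calc f' ≤ f * exp (0.01 * W) := hff
      _ = exp (0.01 * W - D) * (exp D * f) := by
          rw [← mul_assoc, ← exp_add, mul_comm]; congr 2; ring
  have ex : ∀ x : ℝ, x ≤ -(cm * D / 4) → exp x ≤ exp (-(cm * D / 4)) := fun x hx =>
    exp_le_exp.mpr hx
  have hcD : cm * D / 4 ≤ 0.05 * D := by nlinarith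
  have t1 : exp (D / 2) * (f' / (q * f)) ≤ exp (-(cm * D / 4)) := by
    calc exp (D / 2) * (f' / (q * f)) ≤ exp (D / 2) * exp (0.01 * W - D) :=
          mul_le_mul_of_nonneg_left hr (exp_pos _).le
      _ = exp (D / 2 + (0.01 * W - D)) := (exp_add _ _).symm
      _ ≤ _ := ex _ (by nlinarith)
  have t2 : exp (D / 2) * exp (W / 2 - D) * (f' / (q * f)) ≤ exp (-(cm * D / 4)) := by
    calc exp (D / 2) * exp (W / 2 - D) * (f' / (q * f)) ≤
          exp (D / 2) * exp (W / 2 - D) * exp (0.01 * W - D) :=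
          mul_le_mul_of_nonneg_left hr (by positivity)
      _ = exp (D / 2 + (W / 2 - D) + (0.01 * W - D)) := by rw [exp_add, exp_add]
      _ ≤ _ := ex _ (by nlinarith)
  have hqf : 0 < q * f * w' := by positivity
  have t4 : exp (D / 2) * exp (W / 2 - D) * (min A B' / (q * f * w')) ≤
      CA * exp (2 * η) * exp (-(cm * D / 4)) := by
    have h1 : min A B' / (q * f * w') ≤ CA * exp (η - W / 2) := by
      rw [div_le_iff₀ hqf]
      calc min A B' ≤ A := min_le_left _ _
        _ ≤ CA * (q * f) := hA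
        _ = CA * (q * f) * (exp (η - W / 2) * exp (W / 2 - η)) := by
            rw [← exp_add]; ring_nf; rw [exp_zero]; ring
        _ ≤ CA * (q * f) * (exp (η - W / 2) * w') := by gcongr
        _ = CA * exp (η - W / 2) * (q * f * w') := by ring
    calc _ ≤ exp (D / 2) * exp (W / 2 - D) * (CA * exp (η - W / 2)) :=
          mul_le_mul_of_nonneg_left h1 (by positivity)
      _ = CA * exp (D / 2 + (W / 2 - D) + (η - W / 2)) := by rw [exp_add, exp_add]; ring
      _ ≤ CA * exp (2 * η + -(cm * D / 4)) := by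
          apply mul_le_mul_of_nonneg_left _ (by linarith)
          exact exp_le_exp.mpr (by nlinarith)
      _ = _ := by rw [exp_add]; ring
  have t3 : exp (D / 2) * (min A B' / (q * f * w')) ≤
      CA * exp (2 * η) * exp (-(cm * D / 4)) := by
    by_cases hDW : D ≤ (1 - cm) * W
    · have h1 : min A B' / (q * f * w') ≤ CA * exp (η - W / 2) := by
        rw [div_le_iff₀ hqf]
        calc min A B' ≤ A := min_le_left _ _
          _ ≤ CA * (q * f) := hA
          _ = CA * (q * f) * (exp (η - W / 2) * exp (W / 2 - η)) := by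
              rw [← exp_add]; ring_nf; rw [exp_zero]; ring
          _ ≤ CA * (q * f) * (exp (η - W / 2) * w') := by gcongr
          _ = CA * exp (η - W / 2) * (q * f * w') := by ring
      calc _ ≤ exp (D / 2) * (CA * exp (η - W / 2)) :=
            mul_le_mul_of_nonneg_left h1 (exp_pos _).le
        _ = CA * exp (D / 2 + (η - W / 2)) := by rw [exp_add]; ring
        _ ≤ CA * exp (2 * η + -(cm * D / 4)) := by
            apply mul_le_mul_of_nonneg_left _ (by linarith)
            apply exp_le_exp.mpr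
            have : cm * D ≤ cm * W := mul_le_mul_of_nonneg_left (by nlinarith) hcm
            nlinarith
        _ = _ := by rw [exp_add]; ring
    · push Not at hDW
      have h1 : min A B' / (q * f * w') ≤ exp (2 * η) * exp (W / 2 - cm * W - D) := by
        rw [div_le_iff₀ hqf, hq]
        calc min A B' ≤ B' := min_le_right _ _
          _ ≤ exp (W + η) := hB
          _ = exp (2 * η) * exp (W / 2 - cm * W - D) *
              (exp D * exp (cm * W) * exp (W / 2 - η)) := by
              rw [← exp_add, ← exp_add, ← exp_add, ← exp_add]; congr 1; ring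
          _ ≤ _ := by gcongr
      have hle : D / 2 + (W / 2 - cm * W - D) ≤ -(cm * D / 4) := by
        by_cases h2 : D ≤ 2 * W
        · have : cm * D ≤ cm * (2 * W) := mul_le_mul_of_nonneg_left h2 hcm
          nlinarith
        · push Not at h2
          nlinarith [mul_nonneg hcm hW]
      calc _ ≤ exp (D / 2) * (exp (2 * η) * exp (W / 2 - cm * W - D)) :=
            mul_le_mul_of_nonneg_left h1 (exp_pos _).le
        _ = exp (2 * η) * exp (D / 2 + (W / 2 - cm * W - D)) := by rw [exp_add]; ring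
        _ ≤ exp (2 * η) * exp (-(cm * D / 4)) :=
            mul_le_mul_of_nonneg_left (ex _ hle) (exp_pos _).le
        _ ≤ CA * (exp (2 * η) * exp (-(cm * D / 4))) := by
            apply le_mul_of_one_le_left (by positivity) hCA
        _ = _ := by ring
  rw [split]
  have h1 : (1 : ℝ) ≤ exp (2 * η) := one_le_exp (by linarith)
  have h2 : exp (-(cm * D / 4)) ≤ CA * exp (2 * η) * exp (-(cm * D / 4)) := by
    apply le_mul_of_one_le_left (exp_pos _).le
    nlinarith
  linarith

theorem fac3 {f' w' B' A W D η cm Q2 : ℝ} (hW : 0 ≤ W) (hη : 0 ≤ η) (hD0 : 0 ≤ D)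
    (hf' : 1 ≤ f') (hw' : exp (W / 2 - η) ≤ w') (hB : B' ≤ exp (W + η)) (hB0 : 0 ≤ B')
    (hQ2 : exp (D / 2 + cm * D / 4 + W) ≤ Q2) :
    exp (D / 2) * (1 + exp (W / 2 - D)) * (1 + min A B' / (f' * w')) * (1 / Q2) ≤
      4 * exp (2 * η) * exp (-(cm * D / 4)) := by
  have hw0 : 0 < w' := (exp_pos _).trans_le hw'
  have hf0 : 0 < f' := by linarith
  have hQ0 : 0 < Q2 := (exp_pos _).trans_le hQ2
  have h1 : 1 + exp (W / 2 - D) ≤ 2 * exp (W / 2) := by
    have a1 : (1 : ℝ) ≤ exp (W / 2) := one_le_exp (by linarith)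
    have a2 : exp (W / 2 - D) ≤ exp (W / 2) := exp_le_exp.mpr (by linarith)
    linarith
  have h2 : 1 + min A B' / (f' * w') ≤ 2 * exp (W / 2 + 2 * η) := by
    have a1 : (1 : ℝ) ≤ exp (W / 2 + 2 * η) := one_le_exp (by linarith)
    have a2 : min A B' / (f' * w') ≤ exp (W / 2 + 2 * η) := by
      rw [div_le_iff₀ (mul_pos hf0 hw0)]
      calc min A B' ≤ B' := min_le_right _ _
        _ ≤ exp (W + η) := hB
        _ = exp (W / 2 + 2 * η) * (1 * exp (W / 2 - η)) := by
            rw [one_mul, ← exp_add]; congr 1; ring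
        _ ≤ _ := by gcongr
    linarith
  have h3 : 1 / Q2 ≤ exp (-(D / 2 + cm * D / 4 + W)) := by
    rw [exp_neg, ← one_div]
    exact one_div_le_one_div_of_le (exp_pos _) hQ2
  have h20 : 0 ≤ 2 * exp (W / 2 + 2 * η) := by positivity
  calc _ ≤ exp (D / 2) * (2 * exp (W / 2)) * (2 * exp (W / 2 + 2 * η)) *
        exp (-(D / 2 + cm * D / 4 + W)) := by
        by_cases hm : 0 ≤ 1 + min A B' / (f' * w')
        · gcongr
        · push Not at hm
          have : exp (D / 2) * (1 + exp (W / 2 - D)) * (1 + min A B' / (f' * w')) * (1 / Q2)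
              ≤ 0 := by
            apply mul_nonpos_of_nonpos_of_nonneg _ (by positivity)
            exact mul_nonpos_of_nonneg_of_nonpos (by positivity) hm.le
          exact this.trans (by positivity)
    _ = 4 * (exp (D / 2) * exp (W / 2) * exp (W / 2 + 2 * η) *
        exp (-(D / 2 + cm * D / 4 + W))) := by ring
    _ = 4 * exp (2 * η) * exp (-(cm * D / 4)) := by
        rw [← exp_add, ← exp_add, ← exp_add, mul_assoc, ← exp_add]
        congr 2
        ring

/-- **(L3), exponents.** -/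
theorem expo {q f f' w w' B' A W D η cm CA CI Cp Q2 I price ρ ρ' : ℝ} (hq : q = exp D)
    (hW : 0 ≤ W) (hη : 0 ≤ η) (hD : 0.38 * W ≤ D) (hcm : 0 ≤ cm) (hcm1 : cm ≤ 0.2)
    (hf : exp (cm * W) ≤ f) (hf2 : f ≤ exp (0.4 * W)) (hf' : 1 ≤ f')
    (hff : f' ≤ f * exp (0.01 * W)) (hw : exp (W / 2 - η) ≤ w) (hw' : exp (W / 2 - η) ≤ w')
    (hB : B' ≤ exp (W + η)) (hB0 : 0 ≤ B') (hA : A ≤ CA * (q * f)) (hA0 : 0 ≤ A)
    (hCA : 1 ≤ CA) (hQ2 : exp (D / 2 + cm * D / 4 + W) ≤ Q2)
    (hI : I ≤ CI * exp (D / 2)) (hI0 : 0 ≤ I) (hCI : 0 ≤ CI)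
    (hprice : price ≤ Cp * (f' / (q * f) + 1 / Q2)) (hp0 : 0 ≤ price) (hCp : 0 ≤ Cp)
    (hρ : 0 ≤ ρ) (hρ' : 0 ≤ ρ') :
    I * (ρ * (1 + ((A + B') / q + 2) / w)) * (ρ' * (1 + min A B' / (f' * w'))) * price ≤
      32 * (CI * Cp * CA ^ 2 * ρ * ρ') * exp (4 * η) * exp (-(cm * D / 4)) := by
  have hD0 : 0 ≤ D := by nlinarith
  have hq0 : 0 < q := by rw [hq]; exact exp_pos _
  have hf0 : 0 < f := (exp_pos _).trans_le hf
  have hw0 : 0 < w := (exp_pos _).trans_le hw
  have hw0' : 0 < w' := (exp_pos _).trans_le hw'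
  have hm0 : 0 ≤ min A B' := le_min hA0 hB0
  have F1 := fac1 hq hW hη hf0 hf2 hw hB hA hCA
  have F2 := fac2 hq hW hη hD hcm hcm1 hf (by linarith) hff hw' hB hB0 hA hA0 hCA
  have F3 := fac3 (A := A) (cm := cm) hW hη hD0 hf' hw' hB hB0 hQ2
  have hX : 0 ≤ 1 + min A B' / (f' * w') := by
    have : 0 < f' := by linarith
    positivity
  have F23 : exp (D / 2) * (1 + exp (W / 2 - D)) * (1 + min A B' / (f' * w')) *
      (f' / (q * f) + 1 / Q2) ≤ 8 * CA * exp (2 * η) * exp (-(cm * D / 4)) := by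
    rw [mul_add]
    have : 4 * exp (2 * η) * exp (-(cm * D / 4)) ≤
        4 * CA * exp (2 * η) * exp (-(cm * D / 4)) := by
      have : 0 < exp (2 * η) * exp (-(cm * D / 4)) := by positivity
      nlinarith
    linarith
  have hex : exp (4 * η) = exp (2 * η) * exp (2 * η) := by rw [← exp_add]; congr 1; ring
  calc I * (ρ * (1 + ((A + B') / q + 2) / w)) * (ρ' * (1 + min A B' / (f' * w'))) * price
      ≤ (CI * exp (D / 2)) * (ρ * (4 * CA * exp (2 * η) * (1 + exp (W / 2 - D)))) *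
        (ρ' * (1 + min A B' / (f' * w'))) * (Cp * (f' / (q * f) + 1 / Q2)) := by
        gcongr
    _ = (CI * Cp * ρ * ρ' * (4 * CA * exp (2 * η))) *
        (exp (D / 2) * (1 + exp (W / 2 - D)) * (1 + min A B' / (f' * w')) *
          (f' / (q * f) + 1 / Q2)) := by ring
    _ ≤ (CI * Cp * ρ * ρ' * (4 * CA * exp (2 * η))) *
        (8 * CA * exp (2 * η) * exp (-(cm * D / 4))) := by gcongr
    _ = 32 * (CI * Cp * CA ^ 2 * ρ * ρ') * exp (4 * η) * exp (-(cm * D / 4)) := by
        rw [hex]; ring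

end Pool.Agent.Helper87.L3
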