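import Mathlib

/-!
# (L2): the exponents

`g = q_F ^ z` is the modulus of the first family of the level, `Q2` the fresh family of the level
above, `P` the step of the front in natural logarithms.
-/

namespace Pool.Agent.Helper87.L3

open Real

/-- **(L2), labels first**, for `4 P ≤ D`. -/
theorem expo2 {q f f' A D P CA CI Cp Q2 I price g : ℝ} (hq : q = exp D) (hP : 0 ≤ P)
    (hD : 4 * P ≤ D) (hf : 0 < f) (hf' : 0 < f') (hff : f' ≤ f * exp P)
    (hff' : f ≤ f' * exp P) (hA : A ≤ CA * (q * f)) (hA0 : 0 ≤ A) (hCA : 1 ≤ CA)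
    (hg : exp (0.6 * D) ≤ g) (hQ2 : exp (1.5 * D) ≤ Q2) (hI : I ≤ CI * exp (D / 2))
    (hI0 : 0 ≤ I) (hCI : 0 ≤ CI) (hprice : price ≤ Cp * (f' / (q * f) + 1 / Q2))
    (hp0 : 0 ≤ price) (hCp : 0 ≤ Cp) :
    I * (A / (f' * g) + 1) * price ≤ 4 * (CI * Cp * CA) * exp (-(0.1 * D)) := by
  have hq0 : 0 < q := by rw [hq]; exact exp_pos _
  have hg0 : 0 < g := (exp_pos _).trans_le hg
  have hQ0 : 0 < Q2 := (exp_pos _).trans_le hQ2
  have hD0 : 0 ≤ D := by linarith
  have hCA0 : 0 ≤ CA := by linarith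
  -- the four terms
  have t1 : exp (D / 2) * (A / (f' * g) * (f' / (q * f))) ≤ CA * exp (-(0.1 * D)) := by
    have e1 : A / (f' * g) * (f' / (q * f)) = A / (q * f) / g := by field_simp
    have e2 : A / (q * f) ≤ CA := by
      rw [div_le_iff₀ (mul_pos hq0 hf)]
      exact hA
    have e3 : A / (q * f) / g ≤ CA * exp (-(0.6 * D)) := by
      rw [div_le_iff₀ hg0]
      calc A / (q * f) ≤ CA := e2
        _ = CA * (exp (-(0.6 * D)) * exp (0.6 * D)) := by rw [← exp_add]; simp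
        _ ≤ CA * (exp (-(0.6 * D)) * g) := by gcongr
        _ = CA * exp (-(0.6 * D)) * g := by ring
    rw [e1]
    calc exp (D / 2) * (A / (q * f) / g) ≤ exp (D / 2) * (CA * exp (-(0.6 * D))) :=
          mul_le_mul_of_nonneg_left e3 (exp_pos _).le
      _ = CA * exp (D / 2 + -(0.6 * D)) := by rw [exp_add]; ring
      _ = CA * exp (-(0.1 * D)) := by congr 2; ring
  have t2 : exp (D / 2) * (f' / (q * f)) ≤ exp (-(0.1 * D)) := by
    have e1 : f' / (q * f) ≤ exp (P - D) := by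
      rw [div_le_iff₀ (mul_pos hq0 hf), hq]
      calc f' ≤ f * exp P := hff
        _ = exp (P - D) * (exp D * f) := by
            rw [← mul_assoc, ← exp_add, mul_comm]; congr 2; ring
    calc exp (D / 2) * (f' / (q * f)) ≤ exp (D / 2) * exp (P - D) :=
          mul_le_mul_of_nonneg_left e1 (exp_pos _).le
      _ = exp (D / 2 + (P - D)) := (exp_add _ _).symm
      _ ≤ _ := exp_le_exp.mpr (by linarith)
  have t3 : exp (D / 2) * (1 / Q2) ≤ exp (-(0.1 * D)) := by
    rw [mul_one_div, div_le_iff₀ hQ0]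
    calc exp (D / 2) ≤ exp (-(0.1 * D) + 1.5 * D) := exp_le_exp.mpr (by linarith)
      _ = exp (-(0.1 * D)) * exp (1.5 * D) := exp_add _ _
      _ ≤ exp (-(0.1 * D)) * Q2 := by gcongr
  have t4 : exp (D / 2) * (A / (f' * g) * (1 / Q2)) ≤ CA * exp (-(0.1 * D)) := by
    have e1 : A / f' ≤ CA * exp (D + P) := by
      rw [div_le_iff₀ hf']
      calc A ≤ CA * (q * f) := hA
        _ ≤ CA * (q * (f' * exp P)) := by gcongr
        _ = CA * exp (D + P) * f' := by rw [hq, exp_add]; ring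
    have e2 : A / (f' * g) * (1 / Q2) = A / f' / (g * Q2) := by field_simp
    have e3 : exp (2.1 * D) ≤ g * Q2 := by
      calc exp (2.1 * D) = exp (0.6 * D) * exp (1.5 * D) := by
            rw [← exp_add]; congr 1; ring
        _ ≤ g * Q2 := by gcongr
    rw [e2]
    have e4 : A / f' / (g * Q2) ≤ CA * exp (D + P - 2.1 * D) := by
      rw [div_le_iff₀ (mul_pos hg0 hQ0)]
      calc A / f' ≤ CA * exp (D + P) := e1
        _ = CA * (exp (D + P - 2.1 * D) * exp (2.1 * D)) := by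
            rw [← exp_add]; congr 2; ring
        _ ≤ CA * (exp (D + P - 2.1 * D) * (g * Q2)) := by gcongr
        _ = CA * exp (D + P - 2.1 * D) * (g * Q2) := by ring
    calc exp (D / 2) * (A / f' / (g * Q2)) ≤ exp (D / 2) * (CA * exp (D + P - 2.1 * D)) :=
          mul_le_mul_of_nonneg_left e4 (exp_pos _).le
      _ = CA * exp (D / 2 + (D + P - 2.1 * D)) := by rw [exp_add]; ring
      _ ≤ CA * exp (-(0.1 * D)) := by
          apply mul_le_mul_of_nonneg_left _ hCA0
          exact exp_le_exp.mpr (by linarith)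
  have hA' : 0 ≤ A / (f' * g) := by positivity
  have hc : 0 ≤ CI * Cp := mul_nonneg hCI hCp
  have hE := (exp_pos (-(0.1 * D)))
  calc I * (A / (f' * g) + 1) * price
      ≤ (CI * exp (D / 2)) * (A / (f' * g) + 1) * (Cp * (f' / (q * f) + 1 / Q2)) := by
        gcongr
    _ = (CI * Cp) * (exp (D / 2) * (A / (f' * g) * (f' / (q * f))) +
        exp (D / 2) * (f' / (q * f)) + exp (D / 2) * (1 / Q2) +
        exp (D / 2) * (A / (f' * g) * (1 / Q2))) := by ring
    _ ≤ (CI * Cp) * (CA * exp (-(0.1 * D)) + exp (-(0.1 * D)) + exp (-(0.1 * D)) +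
        CA * exp (-(0.1 * D))) := by gcongr
    _ ≤ (CI * Cp) * (4 * CA * exp (-(0.1 * D))) := by
        apply mul_le_mul_of_nonneg_left _ hc
        nlinarith
    _ = 4 * (CI * Cp * CA) * exp (-(0.1 * D)) := by ring

/-- **(L2), the target is constant**: `m0` labels, each with the price of a front step. -/
theorem expo2_short {q f f' P Cp Q2 m0 price : ℝ} (hμ : f' * exp P ≤ q * f) (hf' : 0 < f')
    (hQ2 : exp P ≤ Q2) (hm : 0 ≤ m0) (hprice : price ≤ Cp * (f' / (q * f) + 1 / Q2))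
    (hCp : 0 ≤ Cp) : m0 * price ≤ 2 * m0 * Cp * exp (-P) := by
  have hqf : 0 < q * f := (mul_pos hf' (exp_pos _)).trans_le hμ
  have hQ0 : 0 < Q2 := (exp_pos _).trans_le hQ2
  have e1 : f' / (q * f) ≤ exp (-P) := by
    rw [div_le_iff₀ hqf]
    calc f' = exp (-P) * (f' * exp P) := by
          rw [mul_comm f', ← mul_assoc, ← exp_add]; simp
      _ ≤ exp (-P) * (q * f) := mul_le_mul_of_nonneg_left hμ (exp_pos _).le
  have e2 : 1 / Q2 ≤ exp (-P) := by
    rw [exp_neg, ← one_div]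
    exact one_div_le_one_div_of_le (exp_pos _) hQ2
  calc m0 * price ≤ m0 * (Cp * (f' / (q * f) + 1 / Q2)) :=
        mul_le_mul_of_nonneg_left hprice hm
    _ ≤ m0 * (Cp * (exp (-P) + exp (-P))) := by gcongr
    _ = 2 * m0 * Cp * exp (-P) := by ring

/-- **(L1)/(stars)**: one side constant, price of the second family. -/
theorem expo1 {D W CI Q1 I : ℝ} (hD : D ≤ 0.4 * W) (hQ1 : exp (0.5 * W) ≤ Q1)
    (hI : I ≤ CI * exp (D / 2)) (hCI : 0 ≤ CI) :
    I * (1 / sqrt Q1) ≤ CI * exp (-(D / 8)) := by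
  have hQ0 : 0 < Q1 := (exp_pos _).trans_le hQ1
  have h1 : exp (W / 4) ≤ sqrt Q1 := by
    rw [show exp (W / 4) = sqrt (exp (0.5 * W)) by
      rw [show (0.5 * W) = W / 4 + W / 4 by ring, exp_add, sqrt_mul_self (exp_pos _).le]]
    exact sqrt_le_sqrt hQ1
  have h2 : 1 / sqrt Q1 ≤ exp (-(W / 4)) := by
    rw [exp_neg, ← one_div]
    exact one_div_le_one_div_of_le (exp_pos _) h1
  have h0 : 0 ≤ 1 / sqrt Q1 := by positivity
  calc I * (1 / sqrt Q1) ≤ CI * exp (D / 2) * (1 / sqrt Q1) :=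
        mul_le_mul_of_nonneg_right hI h0
    _ ≤ CI * exp (D / 2) * exp (-(W / 4)) := by gcongr
    _ = CI * exp (D / 2 + -(W / 4)) := by rw [exp_add]; ring
    _ ≤ CI * exp (-(D / 8)) := by
        apply mul_le_mul_of_nonneg_left _ hCI
        exact exp_le_exp.mpr (by linarith)

end Pool.Agent.Helper87.L3
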