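import Pool.Agent.Helper87.L3.Expo

/-!
# (L3): the exponents, free constants

As `Expo.lean`, with `θ * W ≤ D` and leads between `cm * W` and `W / 2`, `f' ≤ f * exp (cP * W)`:
all that is needed is `cP ≤ (1/2 - cm/4) θ` and `1/2 + cP ≤ (3/2 - cm/4) θ`.
-/

namespace Pool.Agent.Helper87.L3

open Real

theorem fac1g {q f w B' A W D η CA : ℝ} (hq : q = exp D) (hη : 0 ≤ η)
    (hW : 0 ≤ W) (hf0 : 0 < f) (hf2 : f ≤ exp (W / 2)) (hw : exp (W / 2 - η) ≤ w)
    (hB : B' ≤ exp (W + η)) (hA : A ≤ CA * (q * f)) (hCA : 1 ≤ CA) :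
    1 + ((A + B') / q + 2) / w ≤ 4 * CA * exp (2 * η) * (1 + exp (W / 2 - D)) := by
  have hq0 : 0 < q := by rw [hq]; exact exp_pos _
  have hw0 : 0 < w := (exp_pos _).trans_le hw
  have e1 : A / q / w ≤ CA * exp (2 * η) := by
    have h1 : A / q ≤ CA * f := by
      rw [div_le_iff₀ hq0]
      linarith
    have h2 : f ≤ exp η * w := by
      calc f ≤ exp (W / 2) := hf2
        _ = exp (η + (W / 2 - η)) := by congr 1; ring
        _ = exp η * exp (W / 2 - η) := exp_add _ _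
        _ ≤ exp η * w := mul_le_mul_of_nonneg_left hw (exp_pos _).le
    rw [div_le_iff₀ hw0]
    calc A / q ≤ CA * f := h1
      _ ≤ CA * (exp η * w) := mul_le_mul_of_nonneg_left h2 (by linarith)
      _ ≤ CA * (exp (2 * η) * w) := by
          apply mul_le_mul_of_nonneg_left _ (by linarith)
          apply mul_le_mul_of_nonneg_right _ hw0.le
          exact exp_le_exp.mpr (by linarith)
      _ = CA * exp (2 * η) * w := by ring
  have e2 : B' / q / w ≤ exp (2 * η) * exp (W / 2 - D) := by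
    rw [div_le_iff₀ hw0, div_le_iff₀ hq0, hq]
    calc B' ≤ exp (W + η) := hB
      _ = exp (2 * η) * exp (W / 2 - D) * exp (W / 2 - η) * exp D := by
          rw [← exp_add, ← exp_add, ← exp_add]; congr 1; ring
      _ ≤ exp (2 * η) * exp (W / 2 - D) * w * exp D := by gcongr
  have e3 : 2 / w ≤ 2 * exp (2 * η) := by
    rw [div_le_iff₀ hw0]
    have : (1 : ℝ) ≤ exp (2 * η) * w := by
      calc (1 : ℝ) = exp 0 := (exp_zero).symm
        _ ≤ exp (2 * η + (W / 2 - η)) := exp_le_exp.mpr (by linarith)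
        _ = exp (2 * η) * exp (W / 2 - η) := exp_add _ _
        _ ≤ exp (2 * η) * w := mul_le_mul_of_nonneg_left hw (exp_pos _).le
    linarith
  have e4 : (1 : ℝ) ≤ exp (2 * η) := one_le_exp (by linarith)
  have e5 : 1 + ((A + B') / q + 2) / w = 1 + A / q / w + B' / q / w + 2 / w := by ring
  have e6 : 0 < exp (W / 2 - D) := exp_pos _
  have e7 : 0 < exp (2 * η) := exp_pos _
  rw [e5]
  nlinarith [mul_pos e7 e6, mul_nonneg (mul_pos e7 e6).le (by linarith : (0 : ℝ) ≤ CA - 1),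
    mul_nonneg e7.le (by linarith : (0 : ℝ) ≤ CA - 1)]

theorem fac2g {q f f' w' B' A W D η cm cP θ CA : ℝ} (hq : q = exp D) (hW : 0 ≤ W) (hη : 0 ≤ η)
    (hD : θ * W ≤ D) (hθ : 0 < θ) (hcm : 0 ≤ cm) (hcm1 : cm ≤ 1)
    (hP1 : cP ≤ (1 / 2 - cm / 4) * θ) (hP2 : 1 / 2 + cP ≤ (3 / 2 - cm / 4) * θ)
    (hf : exp (cm * W) ≤ f)
    (hf'0 : 0 < f') (hff : f' ≤ f * exp (cP * W)) (hw' : exp (W / 2 - η) ≤ w')
    (hB : B' ≤ exp (W + η)) (hB0 : 0 ≤ B') (hA : A ≤ CA * (q * f)) (hA0 : 0 ≤ A)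
    (hCA : 1 ≤ CA) :
    exp (D / 2) * (1 + exp (W / 2 - D)) * (1 + min A B' / (f' * w')) * (f' / (q * f)) ≤
      4 * CA * exp (2 * η) * exp (-(cm * D / 4)) := by
  have hq0 : 0 < q := by rw [hq]; exact exp_pos _
  have hw0 : 0 < w' := (exp_pos _).trans_le hw'
  have hf0 : 0 < f := (exp_pos _).trans_le hf
  have hθW : 0 ≤ θ * W := mul_nonneg hθ.le hW
  have hD0 : 0 ≤ D := hθW.trans hD
  have hm0 : 0 ≤ min A B' := le_min hA0 hB0
  have k1 : cP * W ≤ (1 / 2 - cm / 4) * D := by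
    calc cP * W ≤ (1 / 2 - cm / 4) * θ * W := mul_le_mul_of_nonneg_right hP1 hW
      _ = (1 / 2 - cm / 4) * (θ * W) := by ring
      _ ≤ (1 / 2 - cm / 4) * D := mul_le_mul_of_nonneg_left hD (by linarith)
  have k2 : (1 / 2 + cP) * W ≤ (3 / 2 - cm / 4) * D := by
    calc (1 / 2 + cP) * W ≤ (3 / 2 - cm / 4) * θ * W := mul_le_mul_of_nonneg_right hP2 hW
      _ = (3 / 2 - cm / 4) * (θ * W) := by ring
      _ ≤ (3 / 2 - cm / 4) * D := mul_le_mul_of_nonneg_left hD (by linarith)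
  -- the four terms
  have split : exp (D / 2) * (1 + exp (W / 2 - D)) * (1 + min A B' / (f' * w')) *
      (f' / (q * f)) = exp (D / 2) * (f' / (q * f)) +
        exp (D / 2) * exp (W / 2 - D) * (f' / (q * f)) +
        exp (D / 2) * (min A B' / (q * f * w')) +
        exp (D / 2) * exp (W / 2 - D) * (min A B' / (q * f * w')) := by
    field_simp
    ring
  have hr : f' / (q * f) ≤ exp (cP * W - D) := by
    rw [div_le_iff₀ (mul_pos hq0 hf0), hq]
    calc f' ≤ f * exp (cP * W) := hff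
      _ = exp (cP * W - D) * (exp D * f) := by
          rw [← mul_assoc, ← exp_add, mul_comm]; congr 2; ring
  have ex : ∀ x : ℝ, x ≤ -(cm * D / 4) → exp x ≤ exp (-(cm * D / 4)) := fun x hx =>
    exp_le_exp.mpr hx
  have t1 : exp (D / 2) * (f' / (q * f)) ≤ exp (-(cm * D / 4)) := by
    calc exp (D / 2) * (f' / (q * f)) ≤ exp (D / 2) * exp (cP * W - D) :=
          mul_le_mul_of_nonneg_left hr (exp_pos _).le
      _ = exp (D / 2 + (cP * W - D)) := (exp_add _ _).symm
      _ ≤ _ := ex _ (by linarith)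
  have t2 : exp (D / 2) * exp (W / 2 - D) * (f' / (q * f)) ≤ exp (-(cm * D / 4)) := by
    calc exp (D / 2) * exp (W / 2 - D) * (f' / (q * f)) ≤
          exp (D / 2) * exp (W / 2 - D) * exp (cP * W - D) :=
          mul_le_mul_of_nonneg_left hr (by positivity)
      _ = exp (D / 2 + (W / 2 - D) + (cP * W - D)) := by rw [exp_add, exp_add]
      _ ≤ _ := ex _ (by linarith)
  have hqf : 0 < q * f * w' := by positivity
  have a1 : min A B' / (q * f * w') ≤ CA * exp (η - W / 2) := by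
    rw [div_le_iff₀ hqf]
    calc min A B' ≤ A := min_le_left _ _
      _ ≤ CA * (q * f) := hA
      _ = CA * (q * f) * (exp (η - W / 2) * exp (W / 2 - η)) := by
          rw [← exp_add]; ring_nf; rw [exp_zero]; ring
      _ ≤ CA * (q * f) * (exp (η - W / 2) * w') := by gcongr
      _ = CA * exp (η - W / 2) * (q * f * w') := by ring
  have hcD : cm * D / 4 ≤ D / 2 := by nlinarith
  have t4 : exp (D / 2) * exp (W / 2 - D) * (min A B' / (q * f * w')) ≤
      CA * exp (2 * η) * exp (-(cm * D / 4)) := by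
    calc _ ≤ exp (D / 2) * exp (W / 2 - D) * (CA * exp (η - W / 2)) :=
          mul_le_mul_of_nonneg_left a1 (by positivity)
      _ = CA * exp (D / 2 + (W / 2 - D) + (η - W / 2)) := by rw [exp_add, exp_add]; ring
      _ ≤ CA * exp (2 * η + -(cm * D / 4)) := by
          apply mul_le_mul_of_nonneg_left _ (by linarith)
          exact exp_le_exp.mpr (by linarith)
      _ = _ := by rw [exp_add]; ring
  have t3 : exp (D / 2) * (min A B' / (q * f * w')) ≤
      CA * exp (2 * η) * exp (-(cm * D / 4)) := by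
    by_cases hDW : D ≤ (1 - cm) * W
    · calc _ ≤ exp (D / 2) * (CA * exp (η - W / 2)) :=
            mul_le_mul_of_nonneg_left a1 (exp_pos _).le
        _ = CA * exp (D / 2 + (η - W / 2)) := by rw [exp_add]; ring
        _ ≤ CA * exp (2 * η + -(cm * D / 4)) := by
            apply mul_le_mul_of_nonneg_left _ (by linarith)
            apply exp_le_exp.mpr
            have : cm * D ≤ cm * W := mul_le_mul_of_nonneg_left (by nlinarith) hcm
            nlinarith
        _ = _ := by rw [exp_add]; ring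
    · push Not at hDW
      have h1 : min A B' / (q * f * w') ≤ exp (2 * η) * exp (W / 2 - cm * W - D) := by
        rw [div_le_iff₀ hqf, hq]
        calc min A B' ≤ B' := min_le_right _ _
          _ ≤ exp (W + η) := hB
          _ = exp (2 * η) * exp (W / 2 - cm * W - D) *
              (exp D * exp (cm * W) * exp (W / 2 - η)) := by
              rw [← exp_add, ← exp_add, ← exp_add, ← exp_add]; congr 1; ring
          _ ≤ _ := by gcongr
      have hle : D / 2 + (W / 2 - cm * W - D) ≤ -(cm * D / 4) := by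
        by_cases h2 : D ≤ 2 * W
        · have : cm * D ≤ cm * (2 * W) := mul_le_mul_of_nonneg_left h2 hcm
          nlinarith
        · push Not at h2
          have h3 : 0 ≤ cm * W := mul_nonneg hcm hW
          have h4 : cm * D ≤ D := by nlinarith
          nlinarith
      calc _ ≤ exp (D / 2) * (exp (2 * η) * exp (W / 2 - cm * W - D)) :=
            mul_le_mul_of_nonneg_left h1 (exp_pos _).le
        _ = exp (2 * η) * exp (D / 2 + (W / 2 - cm * W - D)) := by rw [exp_add]; ring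
        _ ≤ exp (2 * η) * exp (-(cm * D / 4)) :=
            mul_le_mul_of_nonneg_left (ex _ hle) (exp_pos _).le
        _ ≤ CA * (exp (2 * η) * exp (-(cm * D / 4))) := by
            apply le_mul_of_one_le_left (by positivity) hCA
        _ = _ := by ring
  rw [split]
  have h1 : (1 : ℝ) ≤ exp (2 * η) := one_le_exp (by linarith)
  have h2 : exp (-(cm * D / 4)) ≤ CA * exp (2 * η) * exp (-(cm * D / 4)) := by
    apply le_mul_of_one_le_left (exp_pos _).le
    nlinarith
  linarith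

/-- **(L3), exponents, free constants.** -/
theorem expog {q f f' w w' B' A W D η cm cP θ CA CI Cp Q2 I price ρ ρ' : ℝ} (hq : q = exp D)
    (hW : 0 ≤ W) (hη : 0 ≤ η) (hD : θ * W ≤ D) (hθ : 0 < θ) (hcm : 0 ≤ cm) (hcm1 : cm ≤ 1)
    (hP1 : cP ≤ (1 / 2 - cm / 4) * θ) (hP2 : 1 / 2 + cP ≤ (3 / 2 - cm / 4) * θ)
    (hf : exp (cm * W) ≤ f) (hf2 : f ≤ exp (W / 2)) (hf' : 1 ≤ f')
    (hff : f' ≤ f * exp (cP * W)) (hw : exp (W / 2 - η) ≤ w) (hw' : exp (W / 2 - η) ≤ w')
    (hB : B' ≤ exp (W + η)) (hB0 : 0 ≤ B') (hA : A ≤ CA * (q * f)) (hA0 : 0 ≤ A)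
    (hCA : 1 ≤ CA) (hQ2 : exp (D / 2 + cm * D / 4 + W) ≤ Q2)
    (hI : I ≤ CI * exp (D / 2)) (hI0 : 0 ≤ I) (hCI : 0 ≤ CI)
    (hprice : price ≤ Cp * (f' / (q * f) + 1 / Q2)) (hp0 : 0 ≤ price) (hCp : 0 ≤ Cp)
    (hρ : 0 ≤ ρ) (hρ' : 0 ≤ ρ') :
    I * (ρ * (1 + ((A + B') / q + 2) / w)) * (ρ' * (1 + min A B' / (f' * w'))) * price ≤
      32 * (CI * Cp * CA ^ 2 * ρ * ρ') * exp (4 * η) * exp (-(cm * D / 4)) := by
  have hD0 : 0 ≤ D := (mul_nonneg hθ.le hW).trans hD
  have hq0 : 0 < q := by rw [hq]; exact exp_pos _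
  have hf0 : 0 < f := (exp_pos _).trans_le hf
  have hw0 : 0 < w := (exp_pos _).trans_le hw
  have hw0' : 0 < w' := (exp_pos _).trans_le hw'
  have hm0 : 0 ≤ min A B' := le_min hA0 hB0
  have F1 := fac1g hq hη hW hf0 hf2 hw hB hA hCA
  have F2 := fac2g hq hW hη hD hθ hcm hcm1 hP1 hP2 hf (by linarith) hff hw' hB hB0 hA hA0 hCA
  have F3 := fac3 (A := A) (cm := cm) hW hη hD0 hf' hw' hB hB0 hQ2
  have hX : 0 ≤ 1 + min A B' / (f' * w') := by
    have : 0 < f' := by linarith
    positivity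
  have F23 : exp (D / 2) * (1 + exp (W / 2 - D)) * (1 + min A B' / (f' * w')) *
      (f' / (q * f) + 1 / Q2) ≤ 8 * CA * exp (2 * η) * exp (-(cm * D / 4)) := by
    rw [mul_add]
    have : 4 * exp (2 * η) * exp (-(cm * D / 4)) ≤
        4 * CA * exp (2 * η) * exp (-(cm * D / 4)) := by
      have : 0 < exp (2 * η) * exp (-(cm * D / 4)) := by positivity
      nlinarith
    linarith
  have hex : exp (4 * η) = exp (2 * η) * exp (2 * η) := by rw [← exp_add]; congr 1; ring
  calc I * (ρ * (1 + ((A + B') / q + 2) / w)) * (ρ' * (1 + min A B' / (f' * w'))) * price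
      ≤ (CI * exp (D / 2)) * (ρ * (4 * CA * exp (2 * η) * (1 + exp (W / 2 - D)))) *
        (ρ' * (1 + min A B' / (f' * w'))) * (Cp * (f' / (q * f) + 1 / Q2)) := by
        gcongr
    _ = (CI * Cp * ρ * ρ' * (4 * CA * exp (2 * η))) *
        (exp (D / 2) * (1 + exp (W / 2 - D)) * (1 + min A B' / (f' * w')) *
          (f' / (q * f) + 1 / Q2)) := by ring
    _ ≤ (CI * Cp * ρ * ρ' * (4 * CA * exp (2 * η))) *
        (8 * CA * exp (2 * η) * exp (-(cm * D / 4))) := by gcongr
    _ = 32 * (CI * Cp * CA ^ 2 * ρ * ρ') * exp (4 * η) * exp (-(cm * D / 4)) := by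
        rw [hex]; ring

end Pool.Agent.Helper87.L3
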